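import Pool.Agent.helper1.VD.SpecA2

set_option autoImplicit false

open scoped ContDiff Topology InnerProductSpace ComplexConjugate ENNReal
open MeasureTheory Filter Set

namespace Pool.Agent.VD

noncomputable section

/-- an open neighbourhood on which two functions are `C^K` -/
theorem AWSY_nhd {d : ℕ} {E F : Type} [NormedAddCommGroup E] [NormedSpace ℝ E] [NormedAddCommGroup F] [NormedSpace ℝ F]
    {f : V d → E} {g : V d → F} {v : V d} (K : ℕ) (hf : ContDiffAt ℝ ∞ f v) (hg : ContDiffAt ℝ ∞ g v) :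
    ∃ u : Set (V d), IsOpen u ∧ v ∈ u ∧ ContDiffOn ℝ K f u ∧ ContDiffOn ℝ K g u := by
  have hf' : ContDiffAt ℝ (K : ℕ∞ω) f v := hf.of_le (by exact_mod_cast le_top)
  have hg' : ContDiffAt ℝ (K : ℕ∞ω) g v := hg.of_le (by exact_mod_cast le_top)
  have ef := hf'.eventually (by simp)
  have eg := hg'.eventually (by simp)
  obtain ⟨u, hu, huo, hvu⟩ := eventually_nhds_iff.1 (ef.and eg)
  exact ⟨u, huo, hvu, fun w hw => (hu w hw).1.contDiffWithinAt, fun w hw => (hu w hw).2.contDiffWithinAt⟩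

/-- Leibniz at a point -/
theorem AWSY_leib {d : ℕ} {E : Type} [NormedAddCommGroup E] [NormedSpace ℝ E] [NormedSpace ℂ E] [IsScalarTower ℝ ℂ E]
    {f : V d → ℂ} {g : V d → E} {v : V d} (k : ℕ) (hf : ContDiffAt ℝ ∞ f v) (hg : ContDiffAt ℝ ∞ g v) :
    ‖iteratedFDeriv ℝ k (fun w => f w • g w) v‖ ≤ ∑ i ∈ Finset.range (k + 1), (k.choose i : ℝ) * ‖iteratedFDeriv ℝ i f v‖ *
      ‖iteratedFDeriv ℝ (k - i) g v‖ := by
  obtain ⟨u, huo, hvu, hfu, hgu⟩ := AWSY_nhd k hf hg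
  have h := norm_iteratedFDerivWithin_smul_le (𝕜 := ℝ) (n := k) hfu hgu huo.uniqueDiffOn hvu le_rfl
  rw [iteratedFDerivWithin_of_isOpen k huo hvu] at h
  refine h.trans (le_of_eq (Finset.sum_congr rfl fun i _ => ?_))
  rw [iteratedFDerivWithin_of_isOpen i huo hvu, iteratedFDerivWithin_of_isOpen (k - i) huo hvu]

/-- Leibniz with bounds -/
theorem AWSY_leib' {d : ℕ} {E : Type} [NormedAddCommGroup E] [NormedSpace ℝ E] [NormedSpace ℂ E] [IsScalarTower ℝ ℂ E]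
    {f : V d → ℂ} {g : V d → E} {v : V d} {K k : ℕ} {N m1 m2 : ℝ} (hk : k ≤ K) (hN : 1 ≤ N) (h1 : 0 ≤ m1) (h2 : 0 ≤ m2)
    (hf : ContDiffAt ℝ ∞ f v) (hg : ContDiffAt ℝ ∞ g v)
    (bf : ∀ i ≤ k, ‖iteratedFDeriv ℝ i f v‖ ≤ m1 * N ^ i) (bg : ∀ i ≤ k, ‖iteratedFDeriv ℝ i g v‖ ≤ m2 * N ^ i) :
    ‖iteratedFDeriv ℝ k (fun w => f w • g w) v‖ ≤ 2 ^ K * m1 * m2 * N ^ k := by
  refine (AWSY_leib k hf hg).trans ?_
  have hN0 : 0 ≤ N := by linarith
  have key : ∀ i ∈ Finset.range (k + 1), (k.choose i : ℝ) * ‖iteratedFDeriv ℝ i f v‖ * ‖iteratedFDeriv ℝ (k - i) g v‖ ≤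
      (k.choose i : ℝ) * (m1 * m2 * N ^ k) := by
    intro i hi
    have hi' : i ≤ k := by
      have := Finset.mem_range.1 hi
      omega
    have e : m1 * m2 * N ^ k = (m1 * N ^ i) * (m2 * N ^ (k - i)) := by
      rw [show N ^ k = N ^ i * N ^ (k - i) by rw [← pow_add, Nat.add_sub_cancel' hi']]
      ring
    rw [e, mul_assoc]
    refine mul_le_mul_of_nonneg_left ?_ (Nat.cast_nonneg _)
    exact mul_le_mul (bf i hi') (bg (k - i) (Nat.sub_le _ _)) (norm_nonneg _) (by positivity)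
  refine (Finset.sum_le_sum key).trans ?_
  rw [← Finset.sum_mul]
  have hs : (∑ i ∈ Finset.range (k + 1), (k.choose i : ℝ)) = 2 ^ k := by
    have := Nat.sum_range_choose k
    exact_mod_cast this
  rw [hs]
  have h3 : (2 : ℝ) ^ k ≤ 2 ^ K := pow_le_pow_right₀ (by norm_num) hk
  have h4 : 0 ≤ m1 * m2 * N ^ k := by positivity
  calc (2 : ℝ) ^ k * (m1 * m2 * N ^ k) ≤ 2 ^ K * (m1 * m2 * N ^ k) := mul_le_mul_of_nonneg_right h3 h4
    _ = 2 ^ K * m1 * m2 * N ^ k := by ring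

/-- the derivatives of the exponential function -/
theorem AWSY_exp (n : ℕ) (z : ℂ) : ‖iteratedFDeriv ℝ n Complex.exp z‖ ≤ ‖Complex.exp z‖ := by
  induction n with
  | zero => simp
  | succ n ih =>
    rw [← norm_iteratedFDeriv_fderiv]
    have e : fderiv ℝ Complex.exp = (ContinuousLinearMap.mul ℝ ℂ) ∘ Complex.exp := by
      funext w
      have h := (Complex.hasStrictFDerivAt_exp_real w).hasFDerivAt.fderiv
      rw [h]
      ext
      simp
    rw [e]
    refine ((ContinuousLinearMap.mul ℝ ℂ).norm_iteratedFDeriv_comp_left (N := ∞)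
      (Complex.contDiff_exp (𝕜 := ℝ)).contDiffAt (by exact_mod_cast le_top)).trans ?_
    have h1 : ‖ContinuousLinearMap.mul ℝ ℂ‖ ≤ 1 := ContinuousLinearMap.opNorm_mul_le ℝ ℂ
    calc ‖ContinuousLinearMap.mul ℝ ℂ‖ * ‖iteratedFDeriv ℝ n Complex.exp z‖ ≤ 1 * ‖iteratedFDeriv ℝ n Complex.exp z‖ :=
          mul_le_mul_of_nonneg_right h1 (norm_nonneg _)
      _ ≤ ‖Complex.exp z‖ := by rw [one_mul]; exact ih

theorem AWSY_comp {d : ℕ} {K : ℕ} {N : ℝ} {ψ : V d → ℂ} {v : V d} (hN : 1 ≤ N) (h1 : ContDiffAt ℝ ∞ ψ v)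
    (h3 : ∀ k, 1 ≤ k → k ≤ K → ‖iteratedFDeriv ℝ k ψ v‖ ≤ N ^ k) {k : ℕ} (hk : k ≤ K) :
    ‖iteratedFDeriv ℝ k (fun w => Complex.exp (ψ w)) v‖ ≤ K.factorial * Real.exp (ψ v).re * N ^ k := by
  obtain ⟨u, huo, hvu, hfu, -⟩ := AWSY_nhd k h1 h1
  have h := norm_iteratedFDerivWithin_comp_le (𝕜 := ℝ) (g := Complex.exp) (f := ψ) (n := k) (s := u) (t := univ) (x := v) (N := (k : ℕ∞ω))
    (Complex.contDiff_exp (𝕜 := ℝ)).contDiffOn hfu le_rfl uniqueDiffOn_univ huo.uniqueDiffOn (mapsTo_univ _ _) hvu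
    (C := Real.exp (ψ v).re) (D := N)
    (fun i _ => by
      rw [iteratedFDerivWithin_univ]
      refine (AWSY_exp i (ψ v)).trans ?_
      rw [Complex.norm_exp])
    (fun i hi hik => by
      rw [iteratedFDerivWithin_of_isOpen i huo hvu]
      exact h3 i hi (hik.trans hk))
  rw [iteratedFDerivWithin_of_isOpen k huo hvu] at h
  refine h.trans ?_
  have hkK : (k.factorial : ℝ) ≤ K.factorial := by exact_mod_cast Nat.factorial_le hk
  have hNk : 0 ≤ N ^ k := by positivity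
  exact mul_le_mul_of_nonneg_right (mul_le_mul_of_nonneg_right hkK (Real.exp_pos _).le) hNk

theorem AWSY_e3 : Real.exp 1 ≤ 3 := by
  have := Real.exp_one_lt_d9
  linarith

theorem AWSY_one {d : ℕ} {K : ℕ} {N ε : ℝ} {ψ : V d → ℂ} {v : V d} (hN : 1 ≤ N) (h0 : 0 ≤ ε) (h1 : ε ≤ 1) (hψ : WS K N ε ψ v)
    {k : ℕ} (hk : k ≤ K) : ‖iteratedFDeriv ℝ k (fun w => Complex.exp (ψ w) - 1) v‖ ≤
      (2 + 2 ^ K * (K.factorial * 3)) * ε * N ^ k := by
  obtain ⟨hs, hb⟩ := hψ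
  have hN0 : 0 ≤ N := by linarith
  have hz : ‖ψ v‖ ≤ ε := by
    have := hb 0 (Nat.zero_le _)
    rw [norm_iteratedFDeriv_zero, pow_zero, mul_one] at this
    exact this
  have hre : (ψ v).re ≤ 1 := (Complex.re_le_norm _).trans (hz.trans h1)
  rcases k with _ | j
  · rw [norm_iteratedFDeriv_zero, pow_zero, mul_one]
    have h2 : ‖Complex.exp (ψ v) - 1‖ ≤ 2 * ‖ψ v‖ := Complex.norm_exp_sub_one_le (hz.trans h1)
    have h3 : 0 ≤ (2 : ℝ) ^ K * (K.factorial * 3) * ε := by positivity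
    calc ‖Complex.exp (ψ v) - 1‖ ≤ 2 * ε := by linarith
      _ ≤ (2 + 2 ^ K * (K.factorial * 3)) * ε := by linarith
  · rw [← norm_iteratedFDeriv_fderiv]
    have hd : (fderiv ℝ (fun w => Complex.exp (ψ w) - 1)) =ᶠ[𝓝 v] fun w => Complex.exp (ψ w) • fderiv ℝ ψ w := by
      have h2 : ContDiffAt ℝ (1 : ℕ∞ω) ψ v := hs.of_le (by exact_mod_cast le_top)
      filter_upwards [h2.eventually (by simp)] with w hw
      have h3 : HasFDerivAt ψ (fderiv ℝ ψ w) w := (hw.differentiableAt (by norm_num)).hasFDerivAt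
      exact (h3.cexp.sub_const 1).fderiv
    rw [(hd.iteratedFDeriv ℝ j).eq_of_nhds]
    have hs' : ContDiffAt ℝ ∞ (fderiv ℝ ψ) v := hs.fderiv_right (by simp)
    have h4 := AWSY_leib' (K := K) (k := j) (N := N) (m1 := K.factorial * 3) (m2 := ε * N) (f := fun w => Complex.exp (ψ w)) (g := fderiv ℝ ψ) (v := v)
      (by omega) hN (by positivity) (by positivity) hs.cexp hs'
      (fun i hi => by
        refine (AWSY_comp (K := K) hN hs (fun l _ hl => (hb l hl).trans ?_) (by omega)).trans ?_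
        · have : 0 ≤ N ^ l := by positivity
          nlinarith
        · have h5 : Real.exp (ψ v).re ≤ 3 := (Real.exp_le_exp.2 hre).trans AWSY_e3
          have h6 : 0 ≤ N ^ i := by positivity
          exact mul_le_mul_of_nonneg_right (mul_le_mul_of_nonneg_left h5 (Nat.cast_nonneg _)) h6)
      (fun i hi => by
        rw [norm_iteratedFDeriv_fderiv]
        refine (hb (i + 1) (by omega)).trans (le_of_eq ?_)
        ring)
    refine h4.trans ?_
    have h7 : 0 ≤ 2 * ε * N ^ (j + 1) := by positivity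
    calc (2 : ℝ) ^ K * (K.factorial * 3) * (ε * N) * N ^ j = 2 ^ K * (K.factorial * 3) * ε * N ^ (j + 1) := by ring
      _ ≤ (2 + 2 ^ K * (K.factorial * 3)) * ε * N ^ (j + 1) := by linarith

theorem AWSY_proof : AWSY_stmt := by
  intro d K
  have hK : (1 : ℝ) ≤ (K.factorial : ℝ) := by exact_mod_cast Nat.one_le_iff_ne_zero.2 (Nat.factorial_ne_zero K)
  have h2K : (1 : ℝ) ≤ 2 ^ K := one_le_pow₀ (by norm_num)
  have hp : (0 : ℝ) ≤ 2 ^ K * (K.factorial * 3) := by positivity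
  refine ⟨2 ^ K + K.factorial + (2 + 2 ^ K * (K.factorial * 3)), by linarith, ?_, ?_, ?_⟩
  · intro N m1 m2 A1 A2 v hN h1 h2 hA1 hA2
    constructor
    · refine ⟨hA1.1.mul hA2.1, fun k hk => ?_⟩
      have h := AWSY_leib' (k := k) (K := K) hk hN h1 h2 hA1.1 hA2.1 (fun i hi => hA1.2 i (hi.trans hk)) (fun i hi => hA2.2 i (hi.trans hk))
      have h' : ‖iteratedFDeriv ℝ k (fun w => A1 w * A2 w) v‖ ≤ 2 ^ K * m1 * m2 * N ^ k := h
      refine h'.trans ?_
      have h3 : 0 ≤ (K.factorial + (2 + 2 ^ K * (K.factorial * 3))) * (m1 * m2 * N ^ k) := by positivity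
      calc 2 ^ K * m1 * m2 * N ^ k ≤ 2 ^ K * m1 * m2 * N ^ k + (K.factorial + (2 + 2 ^ K * (K.factorial * 3))) * (m1 * m2 * N ^ k) := by linarith
        _ = (2 ^ K + K.factorial + (2 + 2 ^ K * (K.factorial * 3))) * m1 * m2 * N ^ k := by ring
    · refine ⟨hA1.1.add hA2.1, fun k hk => ?_⟩
      have hk1 : ContDiffAt ℝ (k : ℕ∞ω) A1 v := hA1.1.of_le (by exact_mod_cast le_top)
      have hk2 : ContDiffAt ℝ (k : ℕ∞ω) A2 v := hA2.1.of_le (by exact_mod_cast le_top)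
      have e : iteratedFDeriv ℝ k (fun w => A1 w + A2 w) v = iteratedFDeriv ℝ k A1 v + iteratedFDeriv ℝ k A2 v :=
        iteratedFDeriv_add_apply hk1 hk2
      rw [e, add_mul]
      exact (norm_add_le _ _).trans (add_le_add (hA1.2 k hk) (hA2.2 k hk))
  · intro N ψ v hN h1 h3
    refine ⟨h1.cexp, fun k hk => ?_⟩
    refine (AWSY_comp (K := K) hN h1 h3 hk).trans ?_
    have h4 : 0 ≤ (2 ^ K + (2 + 2 ^ K * (K.factorial * 3))) * (Real.exp (ψ v).re * N ^ k) := by positivity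
    calc K.factorial * Real.exp (ψ v).re * N ^ k ≤ K.factorial * Real.exp (ψ v).re * N ^ k +
          (2 ^ K + (2 + 2 ^ K * (K.factorial * 3))) * (Real.exp (ψ v).re * N ^ k) := by linarith
      _ = (2 ^ K + K.factorial + (2 + 2 ^ K * (K.factorial * 3))) * Real.exp (ψ v).re * N ^ k := by ring
  · intro N ε ψ v hN h0 h1 hψ
    refine ⟨hψ.1.cexp.sub contDiffAt_const, fun k hk => ?_⟩
    refine (AWSY_one hN h0 h1 hψ hk).trans ?_
    have h4 : 0 ≤ ((2 : ℝ) ^ K + K.factorial) * (ε * N ^ k) := by positivity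
    calc (2 + 2 ^ K * (K.factorial * 3)) * ε * N ^ k ≤ (2 + 2 ^ K * (K.factorial * 3)) * ε * N ^ k +
          ((2 : ℝ) ^ K + K.factorial) * (ε * N ^ k) := by linarith
      _ = (2 ^ K + K.factorial + (2 + 2 ^ K * (K.factorial * 3))) * ε * N ^ k := by ring

end

end Pool.Agent.VD
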