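import Pool.Agent.helper47.VD.SpecA1

set_option autoImplicit false

open scoped ContDiff Topology InnerProductSpace ComplexConjugate ENNReal
open MeasureTheory Filter Set

namespace Pool.Agent.VD

noncomputable section

theorem ANCH_proof (h1 : ASGF_stmt) : ANCH_stmt := by
  classical
  intro d Γ _ _ K r hK
  obtain ⟨hf, -, -⟩ := h1 d Γ K hK r 0
  refine ⟨max 1 (SG Γ d r).ncard, le_max_left _ _, fun z => ?_⟩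
  have hinj : ∀ γ₀ : Γ, ‖γ₀⁻¹ • z‖ ≤ r → MapsTo (fun γ : Γ => γ⁻¹ * γ₀) {γ : Γ | ‖γ⁻¹ • z‖ ≤ r} (SG Γ d r) ∧
      InjOn (fun γ : Γ => γ⁻¹ * γ₀) {γ : Γ | ‖γ⁻¹ • z‖ ≤ r} := by
    intro γ₀ h0
    refine ⟨fun γ hγ => ⟨γ₀⁻¹ • z, h0, ?_⟩, fun γ _ γ' _ h => ?_⟩
    · have h2 : (γ⁻¹ * γ₀) • (γ₀⁻¹ • z) = γ⁻¹ • z := by
        rw [smul_smul, mul_assoc, mul_inv_cancel, mul_one]
      have h3 : ‖γ⁻¹ • z‖ ≤ r := hγ
      show ‖(γ⁻¹ * γ₀) • (γ₀⁻¹ • z)‖ ≤ r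
      rw [h2]
      exact h3
    · have h2 : γ⁻¹ * γ₀ = γ'⁻¹ * γ₀ := h
      exact inv_injective (mul_right_cancel h2)
  have hfin : {γ : Γ | ‖γ⁻¹ • z‖ ≤ r}.Finite ∧ {γ : Γ | ‖γ⁻¹ • z‖ ≤ r}.ncard ≤ max 1 (SG Γ d r).ncard := by
    rcases Set.eq_empty_or_nonempty {γ : Γ | ‖γ⁻¹ • z‖ ≤ r} with h0 | ⟨γ₀, h0⟩
    · rw [h0]
      exact ⟨Set.finite_empty, by rw [Set.ncard_empty]; exact Nat.zero_le _⟩
    · obtain ⟨m1, m2⟩ := hinj γ₀ h0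
      exact ⟨Set.Finite.of_injOn m1 m2 hf, (Set.ncard_le_ncard_of_injOn _ m1 m2 hf).trans (le_max_right _ _)⟩
  refine ⟨hfin.1, hfin.2, fun M a hM ha => ?_⟩
  rw [tsum_eq_sum (s := hfin.1.toFinset) (by
    intro γ hγ
    rw [Set.Finite.mem_toFinset] at hγ
    by_contra hne
    exact hγ (hM _ hne))]
  refine (Finset.sum_le_card_nsmul _ _ a fun γ _ => ha _).trans ?_
  rw [nsmul_eq_mul, ← Set.ncard_eq_toFinset_card _ hfin.1]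
  have h2 : (({γ : Γ | ‖γ⁻¹ • z‖ ≤ r}.ncard : ℕ) : ENNReal) ≤ ((max 1 (SG Γ d r).ncard : ℕ) : ENNReal) := by
    exact_mod_cast hfin.2
  exact mul_le_mul_left h2 a

end

end Pool.Agent.VD
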