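import Pool.Agent.helper1.VD.SpecA2

/-!
# Project VD (MP_07c750_an), row `vd:AWP3`: the cut-off does not matter
-/

set_option autoImplicit false

open scoped ContDiff Topology InnerProductSpace ComplexConjugate ENNReal
open MeasureTheory Filter Set

namespace Pool.Agent.VD

open Pool.Agent.VQ (CH)

noncomputable section

/-- monotonicity of symbol estimates in both constants -/
theorem AWP3_mono {d K : ℕ} {N N' m m' : ℝ} {A : V d → ℂ} {v : V d} (hN : 0 ≤ N) (hNN : N ≤ N') (hm : 0 ≤ m') (hmm : m ≤ m') (h : WS K N m A v) : WS K N' m' A v := by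
  refine ⟨h.1, fun k hk => (h.2 k hk).trans ?_⟩
  exact mul_le_mul hmm (pow_le_pow_left₀ hN hNN k) (pow_nonneg hN k) hm

/-- negatives -/
theorem AWP3_neg {d K : ℕ} {N m : ℝ} {A : V d → ℂ} {v : V d} (h : WS K N m A v) : WS K N m (fun w => -A w) v := by
  refine ⟨h.1.neg, fun k hk => ?_⟩
  have e1 : (fun w => -A w) = -A := rfl
  rw [e1, iteratedFDeriv_neg_apply, norm_neg]
  exact h.2 k hk

/-- multiplication by a constant -/
theorem AWP3_smul {d K : ℕ} {N m : ℝ} {A : V d → ℂ} {v : V d} (a : ℂ) (h : WS K N m A v) : WS K N (‖a‖ * m) (fun w => a * A w) v := by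
  refine ⟨contDiffAt_const.mul h.1, fun k hk => ?_⟩
  have hk' : ContDiffAt ℝ (k : WithTop ℕ∞) A v := h.1.of_le (by exact_mod_cast le_top)
  have e1 : (fun w => a * A w) = a • A := by
    funext w
    simp [smul_eq_mul]
  rw [e1, iteratedFDeriv_const_smul_apply hk', norm_smul, mul_assoc]
  exact mul_le_mul_of_nonneg_left (h.2 k hk) (norm_nonneg a)

/-- the density factor -/
theorem AWP3_dens (hAHLD : AHLD_stmt) (hAMVI : AMVI_stmt) (d : ℕ) (Γ : Type) [Group Γ] [MulAction Γ (V d)] (K : Set (V d)) (k : ℝ) (B : ℕ → ℕ → ℝ) (r : ℝ) (Kd : ℕ) (hK : FdK Γ K) :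
    ∃ C : ℝ, 1 ≤ C ∧ ∀ (G : V d → V d →L[ℝ] V d) (x : V d), Cls Γ K k B G → ‖x‖ ≤ r →
      ContDiff ℝ ∞ (fun v : V d => (((Real.sqrt (dens G (x + v)))⁻¹ : ℝ) : ℂ)) ∧
      ∀ v : V d, ‖v‖ ≤ 1 → WS Kd 1 C (fun v : V d => (((Real.sqrt (dens G (x + v)))⁻¹ : ℝ) : ℂ)) v := by
  obtain ⟨C, hC, h⟩ := hAHLD d Γ K k B (r + 1) Kd
  refine ⟨C, hC, fun G x hG hx => ?_⟩
  obtain ⟨-, hsm, hpos, -⟩ := hAMVI d Γ K k B G hK hG
  have h1 := (h G hK hG).2.2.2.2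
  have hg : ContDiff ℝ ∞ (fun y : V d => (Real.sqrt (dens G y))⁻¹) := by
    refine ContDiff.inv ?_ ?_
    · exact hsm.sqrt fun y => (hpos y).ne'
    · intro y
      exact (Real.sqrt_pos.mpr (hpos y)).ne'
  have hg2 : ContDiff ℝ ∞ (fun v : V d => (Real.sqrt (dens G (x + v)))⁻¹) := hg.comp (contDiff_const.add contDiff_id)
  have hg3 : ContDiff ℝ ∞ (fun v : V d => (((Real.sqrt (dens G (x + v)))⁻¹ : ℝ) : ℂ)) := Complex.ofRealCLM.contDiff.comp hg2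
  refine ⟨hg3, fun v hv => ⟨hg3.contDiffAt, fun j hj => ?_⟩⟩
  have e1 : (fun v : V d => (((Real.sqrt (dens G (x + v)))⁻¹ : ℝ) : ℂ)) = (Complex.ofRealLI : ℝ →ₗᵢ[ℝ] ℂ) ∘ (fun v : V d => (Real.sqrt (dens G (x + v)))⁻¹) := rfl
  have hle : ((j : ℕ∞) : WithTop ℕ∞) ≤ ((⊤ : ℕ∞) : WithTop ℕ∞) := by exact_mod_cast le_top
  rw [e1, LinearIsometry.norm_iteratedFDeriv_comp_left (Complex.ofRealLI : ℝ →ₗᵢ[ℝ] ℂ) (hg2.contDiffAt (x := v)) hle, one_pow, mul_one]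
  have e2 : iteratedFDeriv ℝ j (fun v : V d => (Real.sqrt (dens G (x + v)))⁻¹) v = iteratedFDeriv ℝ j (fun y : V d => (Real.sqrt (dens G y))⁻¹) (x + v) :=
    iteratedFDeriv_comp_add_left (𝕜 := ℝ) (f := fun y : V d => (Real.sqrt (dens G y))⁻¹) j x v
  rw [e2]
  refine (((h1 (x + v) ?_).2.1) j hj).2.1
  calc ‖x + v‖ ≤ ‖x‖ + ‖v‖ := norm_add_le _ _
    _ ≤ r + 1 := add_le_add hx hv

/-- the abstract form -/
theorem AWP3_core (hAWCT : AWCT_stmt) (hAWQF : AWQF_stmt) (hAWSY : AWSY_stmt) (hAWPK : AWPK_stmt) (hAWPX : AWPX_stmt) (hAHLD : AHLD_stmt) (hAMVI : AMVI_stmt)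
    (d : ℕ) (Γ : Type) [Group Γ] [MulAction Γ (V d)] (K : Set (V d)) (k : ℝ) (B : ℕ → ℕ → ℝ) (r : ℝ) (hK : FdK Γ K)
    (ch : ℝ → ℝ) (Kd : ℕ) (e ζ' ζ2 M C0 E : ℝ) (hch : CH ch) (he : 0 ≤ e) (h4 : 4 * e ≤ ζ') (hζ : 0 < ζ') (h2 : ζ' ≤ ζ2) (h8 : ζ2 ≤ 1 / 8) (hC0 : 1 ≤ C0) :
    ∃ R0 : ℝ, 1 ≤ R0 ∧ ∀ (R : ℝ) (G : V d → V d →L[ℝ] V d) (q : P d) (Mm : MC d) (a : ℂ) (f : V d → ℂ), R0 ≤ R → Cls Γ K k B G → ‖q.1‖ ≤ r →
      (∀ i j, ‖Mm i j‖ ≤ C0 * R ^ (2 * e)) → (∀ v : V d, ‖v‖ ^ 2 ≤ C0 * R ^ (2 * e) * (qf Mm v).im) → ‖a‖ ≤ C0 * R ^ E →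
      (∀ w : V d, f w = Complex.exp (((R * ⟪q.2, w - q.1⟫_ℝ : ℝ) : ℂ) * Complex.I) *
        (a * ((((Real.sqrt (dens G (q.1 + (w - q.1))))⁻¹ : ℝ) : ℂ) * ((WX ch ζ2 R (w - q.1) + -WX ch ζ' R (w - q.1)) * WE R Mm (w - q.1))))) →
      Pk Kd (8 * ζ2) (R ^ (-M)) R q f := by
  obtain ⟨Cc, hCc, hct⟩ := hAWCT d ch Kd hch
  obtain ⟨Cq, hCq, hqf⟩ := hAWQF d Kd
  obtain ⟨Cs, hCs, hsy, -, -⟩ := hAWSY d Kd
  obtain ⟨Ch, hCh, hdn⟩ := AWP3_dens hAHLD hAMVI d Γ K k B r Kd hK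
  have hζ2 : 0 < ζ2 := hζ.trans_le h2
  -- the constants
  set C1 : ℝ := Cs * Ch * (Cs * (Cc + Cc) * Cq) with hC1
  have hC1pos : 1 ≤ C1 := by
    have i1 : 1 ≤ Cs * Ch := one_le_mul_of_one_le_of_one_le hCs hCh
    have i2 : 1 ≤ Cs * (Cc + Cc) := one_le_mul_of_one_le_of_one_le hCs (by linarith)
    have i3 : 1 ≤ Cs * (Cc + Cc) * Cq := one_le_mul_of_one_le_of_one_le i2 hCq
    exact one_le_mul_of_one_le_of_one_le i1 i3
  obtain ⟨R1, hR1, hpx⟩ := hAWPX (2 * C0 + C0 * C1) ζ' (M + E) hζ (by nlinarith)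
  -- the large parameter
  obtain ⟨R2, hR2⟩ : ∃ R2 : ℝ, 1 ≤ R2 ∧ ∀ R : ℝ, R2 ≤ R → Cq * C0 ≤ R ^ (ζ2) := by
    have ht := (tendsto_rpow_atTop hζ2).eventually_ge_atTop (Cq * C0)
    obtain ⟨R2, h⟩ := eventually_atTop.mp ht
    exact ⟨max 1 R2, le_max_left _ _, fun R hR => h R ((le_max_right _ _).trans hR)⟩
  refine ⟨max R1 R2, hR1.trans (le_max_left _ _), fun R G q Mm a f hR hG hq hM hpos ha hf => ?_⟩
  have hRR1 : R1 ≤ R := (le_max_left _ _).trans hR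
  have hRR2 : R2 ≤ R := (le_max_right _ _).trans hR
  have hR1' : 1 ≤ R := hR1.trans hRR1
  have hRpos : 0 < R := by linarith
  have hexp := hR2.2 R hRR2
  obtain ⟨hc2sm, -, -, hc2b, hc2one, hc2zero⟩ := hct ζ2 R hζ2.le (by linarith) hR1'
  obtain ⟨hc1sm, -, -, hc1b, hc1one, hc1zero⟩ := hct ζ' R hζ.le (by linarith) hR1'
  have hm1 : 1 ≤ C0 * R ^ (2 * e) := one_le_mul_of_one_le_of_one_le hC0 (Real.one_le_rpow hR1' (by linarith))
  obtain ⟨hdsm, hdws⟩ := hdn G q.1 hG hq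
  -- radii
  have hrad : R ^ (-(1 / 2) + ζ2) ≤ 1 := Real.rpow_le_one_of_one_le_of_nonpos hR1' (by linarith)
  have hradd : R ^ (-(1 / 2) + ζ') ≤ R ^ (-(1 / 2) + ζ2) := Real.rpow_le_rpow_of_exponent_le hR1' (by linarith)
  have hrpos : 0 < R ^ (-(1 / 2) + ζ2) := Real.rpow_pos_of_pos hRpos _
  have hWE : ContDiff ℝ ∞ (WE R Mm) := (hqf R (C0 * R ^ (2 * e)) ζ2 Mm 0 hR1' hm1 hζ2.le hM (by rw [norm_zero]; exact hrpos.le)).1
  set N : ℝ := Cq * (C0 * R ^ (2 * e)) * R ^ (1 / 2 + ζ2) with hN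
  have hN1 : R ^ (1 / 2 : ℝ) ≤ N := by
    have i1 : 1 ≤ Cq * (C0 * R ^ (2 * e)) := one_le_mul_of_one_le_of_one_le hCq hm1
    have i2 : R ^ (1 / 2 : ℝ) ≤ R ^ (1 / 2 + ζ2) := Real.rpow_le_rpow_of_exponent_le hR1' (by linarith)
    have i3 : 0 ≤ R ^ (1 / 2 + ζ2) := (Real.rpow_pos_of_pos hRpos _).le
    calc R ^ (1 / 2 : ℝ) ≤ R ^ (1 / 2 + ζ2) := i2
      _ = 1 * R ^ (1 / 2 + ζ2) := (one_mul _).symm
      _ ≤ N := mul_le_mul_of_nonneg_right i1 i3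
  have hRh : 1 ≤ R ^ (1 / 2 : ℝ) := Real.one_le_rpow hR1' (by norm_num)
  have hN0 : 1 ≤ N := hRh.trans hN1
  have hNle : N ≤ R ^ (1 / 2 + 8 * ζ2) := by
    have i1 : N = (Cq * C0) * (R ^ (2 * e) * R ^ (1 / 2 + ζ2)) := by rw [hN]; ring
    rw [i1, ← Real.rpow_add hRpos]
    have i2 : 0 ≤ R ^ (2 * e + (1 / 2 + ζ2)) := (Real.rpow_pos_of_pos hRpos _).le
    calc Cq * C0 * R ^ (2 * e + (1 / 2 + ζ2)) ≤ R ^ ζ2 * R ^ (2 * e + (1 / 2 + ζ2)) := mul_le_mul_of_nonneg_right hexp i2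
      _ = R ^ (ζ2 + (2 * e + (1 / 2 + ζ2))) := (Real.rpow_add hRpos _ _).symm
      _ ≤ R ^ (1 / 2 + 8 * ζ2) := Real.rpow_le_rpow_of_exponent_le hR1' (by linarith)
  set A : V d → ℂ := fun v => a * ((((Real.sqrt (dens G (q.1 + v)))⁻¹ : ℝ) : ℂ) * ((WX ch ζ2 R v + -WX ch ζ' R v) * WE R Mm v)) with hA
  have hAsm : ContDiff ℝ ∞ A := contDiff_const.mul (hdsm.mul ((hc2sm.add hc1sm.neg).mul hWE))
  refine (hAWPK d Kd R q hR1').1 ζ2 (8 * ζ2) (R ^ (-M)) A f (by linarith) (Real.rpow_pos_of_pos hRpos _).le hAsm ?_ ?_ hf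
  · intro v hv
    have z1 := hc1zero v (lt_of_le_of_lt hradd hv)
    have z2 := hc2zero v hv
    filter_upwards [z1, z2] with w hw1 hw2
    simp only [hA, hw1, hw2]
    ring
  · intro v hv j hj
    have hR0 : 0 ≤ R ^ (-M) := (Real.rpow_pos_of_pos hRpos _).le
    have hP0 : 0 ≤ (R ^ (1 / 2 + 8 * ζ2)) ^ j := pow_nonneg (Real.rpow_pos_of_pos hRpos _).le j
    by_cases hsmall : ‖v‖ < R ^ (-(1 / 2) + ζ') / 2
    · have z1 := hc1one v hsmall
      have z2 := hc2one v (lt_of_lt_of_le hsmall (by linarith))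
      have hA0 : A =ᶠ[𝓝 v] fun _ => (0 : ℂ) := by
        filter_upwards [z1, z2] with w hw1 hw2
        simp only [hA, hw1, hw2]
        ring
      rw [Filter.EventuallyEq.eq_of_nhds (Filter.EventuallyEq.iteratedFDeriv ℝ hA0 j)]
      have e0 : iteratedFDeriv ℝ j (fun _ : V d => (0 : ℂ)) = 0 := iteratedFDeriv_fun_zero
      rw [e0]
      simp only [Pi.zero_apply, norm_zero]
      exact mul_nonneg hR0 hP0
    · have hge : R ^ (-(1 / 2) + ζ') / 2 ≤ ‖v‖ := not_lt.mp hsmall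
      have hv1 : ‖v‖ ≤ 1 := hv.trans hrad
      have hNn : 0 ≤ N := by linarith
      have w2 : WS Kd N Cc (WX ch ζ2 R) v :=
        AWP3_mono (by linarith) hN1 (by linarith) le_rfl ⟨hc2sm.contDiffAt, fun i hi => hc2b i hi v⟩
      have w1 : WS Kd N Cc (WX ch ζ' R) v :=
        AWP3_mono (by linarith) hN1 (by linarith) le_rfl ⟨hc1sm.contDiffAt, fun i hi => hc1b i hi v⟩
      have w3 : WS Kd N (Cc + Cc) (fun w => WX ch ζ2 R w + -WX ch ζ' R w) v :=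
        (hsy N Cc Cc (WX ch ζ2 R) (fun w => -WX ch ζ' R w) v hN0 (by linarith) (by linarith) w2 (AWP3_neg w1)).2
      have w4 := (hqf R (C0 * R ^ (2 * e)) ζ2 Mm v hR1' hm1 hζ2.le hM hv).2
      set X : ℝ := Real.exp (-(R / 2 * (qf Mm v).im)) with hX
      have hXpos : 0 < X := Real.exp_pos _
      have hCqX : 0 ≤ Cq * X := mul_nonneg (by linarith) hXpos.le
      have w5 := (hsy N (Cc + Cc) (Cq * X) (fun w => WX ch ζ2 R w + -WX ch ζ' R w) (WE R Mm) v hN0 (by linarith) hCqX w3 w4).1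
      have w6 : WS Kd N Ch (fun v : V d => (((Real.sqrt (dens G (q.1 + v)))⁻¹ : ℝ) : ℂ)) v :=
        AWP3_mono zero_le_one hN0 (by linarith) le_rfl (hdws v hv1)
      have hm5 : 0 ≤ Cs * (Cc + Cc) * (Cq * X) := mul_nonneg (mul_nonneg (by linarith) (by linarith)) hCqX
      have w7 := (hsy N Ch (Cs * (Cc + Cc) * (Cq * X)) _ _ v hN0 (by linarith) hm5 w6 w5).1
      have w8 := AWP3_smul a w7
      have hb := w8.2 j hj
      have hb' : ‖iteratedFDeriv ℝ j A v‖ ≤ ‖a‖ * (Cs * Ch * (Cs * (Cc + Cc) * (Cq * X))) * N ^ j := hb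
      have hC1X : Cs * Ch * (Cs * (Cc + Cc) * (Cq * X)) = C1 * X := by rw [hC1]; ring
      rw [hC1X] at hb'
      -- the exponential factor
      have hpx' := hpx R e ‖v‖ hRR1 he h4 (by
        refine le_trans ?_ hge
        refine div_le_div_of_nonneg_left (Real.rpow_pos_of_pos hRpos _).le (by norm_num) ?_
        nlinarith)
      have hRe : 0 < R ^ (2 * e) := Real.rpow_pos_of_pos hRpos _
      have hXle : X ≤ Real.exp (-(R * ‖v‖ ^ 2 / ((2 * C0 + C0 * C1) * R ^ (2 * e)))) := by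
        rw [hX]
        refine Real.exp_le_exp.mpr (neg_le_neg ?_)
        have hden : 0 < (2 * C0 + C0 * C1) * R ^ (2 * e) := mul_pos (by nlinarith) hRe
        rw [div_le_iff₀ hden]
        have hp := hpos v
        have him : 0 ≤ (qf Mm v).im := by
          by_contra hneg
          push Not at hneg
          have : C0 * R ^ (2 * e) * (qf Mm v).im < 0 := mul_neg_of_pos_of_neg (by positivity) hneg
          have h0 : 0 ≤ ‖v‖ ^ 2 := sq_nonneg _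
          linarith
        have hC1C0 : 0 ≤ C0 * C1 := by nlinarith
        calc R * ‖v‖ ^ 2 ≤ R * (C0 * R ^ (2 * e) * (qf Mm v).im) := mul_le_mul_of_nonneg_left hp hRpos.le
          _ = R / 2 * (qf Mm v).im * (2 * C0 * R ^ (2 * e)) := by ring
          _ ≤ R / 2 * (qf Mm v).im * ((2 * C0 + C0 * C1) * R ^ (2 * e)) := by
            refine mul_le_mul_of_nonneg_left ?_ (mul_nonneg (by linarith) him)
            refine mul_le_mul_of_nonneg_right ?_ hRe.le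
            linarith
      have hCC : C0 * C1 * X ≤ R ^ (-(M + E)) := by
        calc C0 * C1 * X ≤ (2 * C0 + C0 * C1) * Real.exp (-(R * ‖v‖ ^ 2 / ((2 * C0 + C0 * C1) * R ^ (2 * e)))) :=
              mul_le_mul (by linarith) hXle hXpos.le (by nlinarith)
          _ ≤ R ^ (-(M + E)) := hpx'
      have hRE : 0 < R ^ E := Real.rpow_pos_of_pos hRpos _
      have hcoef : ‖a‖ * (C1 * X) ≤ R ^ (-M) := by
        calc ‖a‖ * (C1 * X) ≤ (C0 * R ^ E) * (C1 * X) := mul_le_mul_of_nonneg_right ha (mul_nonneg (by linarith) hXpos.le)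
          _ = R ^ E * (C0 * C1 * X) := by ring
          _ ≤ R ^ E * R ^ (-(M + E)) := mul_le_mul_of_nonneg_left hCC hRE.le
          _ = R ^ (E + -(M + E)) := (Real.rpow_add hRpos _ _).symm
          _ = R ^ (-M) := by congr 1; ring
      calc ‖iteratedFDeriv ℝ j A v‖ ≤ ‖a‖ * (C1 * X) * N ^ j := hb'
        _ ≤ R ^ (-M) * (R ^ (1 / 2 + 8 * ζ2)) ^ j := mul_le_mul hcoef (pow_le_pow_left₀ hNn hNle j) (pow_nonneg hNn j) hR0

/-- the quadratic form of `i` -/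
theorem AWP3_qfI {d : ℕ} (v : V d) : qf (Complex.I • (1 : MC d)) v = Complex.I * ((‖v‖ ^ 2 : ℝ) : ℂ) := by
  have h1 : ‖v‖ ^ 2 = ∑ i, v i * v i := by
    rw [EuclideanSpace.norm_sq_eq]
    refine Finset.sum_congr rfl fun i _ => ?_
    rw [Real.norm_eq_abs, sq_abs, sq]
  rw [qf, h1]
  push_cast
  rw [Finset.mul_sum]
  refine Finset.sum_congr rfl fun i _ => ?_
  rw [Finset.sum_eq_single i]
  · simp [Matrix.smul_apply]
  · intro j _ hj
    simp [Matrix.smul_apply, Matrix.one_apply_ne hj.symm]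
  · intro hi
    exact absurd (Finset.mem_univ i) hi

/-- the Gaussian factor of `i` -/
theorem AWP3_WEI {d : ℕ} (R : ℝ) (v : V d) : WE R (Complex.I • (1 : MC d)) v = ((Real.exp (-(R * ‖v‖ ^ 2 / 2)) : ℝ) : ℂ) := by
  rw [WE, AWP3_qfI, Complex.ofReal_exp]
  congr 1
  push_cast
  linear_combination (R : ℂ) * ((‖v‖ : ℂ) ^ 2) / 2 * Complex.I_sq

/-- the standard data are admissible -/
theorem AWP3_lag {d : ℕ} : Lag 1 (1 : MC d) (Complex.I • (1 : MC d)) := by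
  have hcz : star Complex.I = -Complex.I := by
    simp
  refine ⟨?_, ?_, ?_, ?_⟩
  · simp
  · rw [Matrix.conjTranspose_one, Matrix.conjTranspose_smul, Matrix.conjTranspose_one, hcz, Matrix.one_mul, Matrix.mul_one, ← sub_smul]
    congr 1
    ring
  · intro i j
    by_cases h : i = j
    · subst h
      simp
    · simp [Matrix.one_apply_ne h]
  · intro i j
    by_cases h : i = j
    · subst h
      simp
    · simp [Matrix.one_apply_ne h]

/-- **Row AWP3** the cut-off does not matter -/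
theorem AWP3_proof (hABMA : ABMA_stmt) (hAWEQ : AWEQ_stmt) (hAWYT : AWYT_stmt) (hAWMT : AWMT_stmt) (hAWCT : AWCT_stmt) (hAWQF : AWQF_stmt) (hAWSY : AWSY_stmt) (hAWPK : AWPK_stmt) (hAWPX : AWPX_stmt)
    (hAHLD : AHLD_stmt) (hACNF : ACNF_stmt) (hABRD : ABRD_stmt) (hAMVI : AMVI_stmt) : AWP3_stmt := by
  intro d Γ _ _ K k B r hK
  refine ⟨8, by norm_num, ?_⟩
  intro ch Kd e ζ ζ1 ζ2 M hch hRg h12 hC2
  obtain ⟨he, hζ, hζ1, hCe, hC1⟩ := hRg
  obtain ⟨Cm, hCm, hma⟩ := hABMA d Γ K k B r hK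
  obtain ⟨Cn, hCn, hcn⟩ := hACNF d Γ K k B r 1 hK
  have hζ1pos : 0 < ζ1 := hζ.trans_le hζ1
  have h8 : ζ2 ≤ 1 / 8 := by linarith
  obtain ⟨R1, hR1, hA⟩ := AWP3_core hAWCT hAWQF hAWSY hAWPK hAWPX hAHLD hAMVI d Γ K k B r hK ch Kd 0 ζ ζ2 M 1 (3 * (d : ℝ) / 4) hch le_rfl (by linarith) hζ (by linarith) h8 le_rfl
  obtain ⟨R2, hR2, hB⟩ := AWP3_core hAWCT hAWQF hAWSY hAWPK hAWPX hAHLD hAMVI d Γ K k B Cn hK ch Kd e ζ1 ζ2 M Cm (e * Cm) hch he (by linarith) hζ1pos h12 h8 hCm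
  obtain ⟨R3, hR3, hbr⟩ := hABRD d ch ζ hch hζ (by linarith)
  refine ⟨max R1 (max R2 R3), hR1.trans (le_max_left _ _), ?_⟩
  intro R t G Φ p Y0 P0 hR hOK hp hEp ht hLag
  have hRR1 : R1 ≤ R := (le_max_left _ _).trans hR
  have hRR2 : R2 ≤ R := ((le_max_left _ _).trans (le_max_right _ _)).trans hR
  have hRR3 : R3 ≤ R := ((le_max_right _ _).trans (le_max_right _ _)).trans hR
  have hR1' : 1 ≤ R := hR1.trans hRR1
  have hRpos : 0 < R := by linarith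
  have hmet := hOK.cls.met
  constructor
  · -- first part
    obtain ⟨-, -, -, -, -, -, -, -, hcRpos, hcRle, -⟩ := hbr R hRR3
    have hΦ0 : Φ 0 p = p := hOK.flow.zero p
    have hYP := (hAWYT d G Φ hmet hOK.flow 1 (Complex.I • 1)).2.2 p
    have hMt : Mt Φ p 1 (Complex.I • 1) 0 = Complex.I • (1 : MC d) := by
      rw [Mt, hYP.1, hYP.2, inv_one, mul_one]
    have hamp : amp Φ p 1 (Complex.I • 1) 0 = 1 := ((hAWMT d G Φ hmet hOK.flow 1 1 (Complex.I • 1) AWP3_lag).1 p 0).2.2.2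
    refine hA R G p (Complex.I • 1) (cR d ch ζ R : ℂ) _ hRR1 hOK.cls hp ?_ ?_ ?_ ?_
    · intro i j
      rw [mul_zero, Real.rpow_zero, mul_one]
      exact AWP3_lag.bdP i j
    · intro v
      rw [mul_zero, Real.rpow_zero, mul_one, one_mul, AWP3_qfI, Complex.I_mul_im, Complex.ofReal_re]
    · rw [one_mul, Complex.norm_real, Real.norm_eq_abs, abs_of_pos hcRpos]
      exact hcRle
    · intro w
      have hw : (Φ 0 p).1 + (w - p.1) = w := by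
        rw [hΦ0]
        abel
      have hw2 : p.1 + (w - p.1) = w := by abel
      have hE := (hAWEQ d Γ K k B G Φ 1 1 (Complex.I • 1) ch ζ2 R hOK AWP3_lag hch (by linarith) h8 hR1' p 0 (w - p.1)).2.1
      rw [hw, hMt, AWP3_WEI] at hE
      rw [Wpf, hamp, hΦ0, hw2] at hE
      rw [hE, hw2, AWP3_WEI, pkt, b0]
      simp only [WX]
      rw [mul_zero, mul_zero, Complex.ofReal_zero, zero_mul, Complex.exp_zero, div_eq_mul_inv]
      push_cast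
      ring
  · -- second part
    have hRe1 : 1 ≤ R ^ e := Real.one_le_rpow hR1' he
    obtain ⟨-, -, -, hampb, -, hMb, hMp⟩ := hma G Φ p t (R ^ e) Y0 P0 hOK hp hEp ht hRe1 hLag
    have hHam : Ham G p ≤ 2 := by
      have h1 := (abs_le.mp hEp).2
      rw [Ep] at h1
      linarith
    have hx := (hcn G Φ hOK p t hp hHam ht).1
    have hsq : (R ^ e) ^ 2 = R ^ (2 * e) := by
      rw [← Real.rpow_natCast, ← Real.rpow_mul hRpos.le]
      congr 1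
      push_cast
      ring
    rw [hsq] at hMb hMp
    refine hB R G (Φ t p) (Mt Φ p Y0 P0 t) (amp Φ p Y0 P0 t * Complex.exp (((R * ((Ham G p + 1 / 2) * t) : ℝ) : ℂ) * Complex.I)) _ hRR2 hOK.cls hx hMb hMp ?_ ?_
    · rw [norm_mul, Complex.norm_exp_ofReal_mul_I, mul_one]
      refine hampb.trans (le_of_eq ?_)
      rw [← Real.rpow_mul hRpos.le]
    · intro w
      have hw : (Φ t p).1 + (w - (Φ t p).1) = w := by abel
      have hE2 := (hAWEQ d Γ K k B G Φ (R ^ e) Y0 P0 ch ζ2 R hOK hLag hch (by linarith) h8 hR1' p t (w - (Φ t p).1)).2.1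
      have hE1 := (hAWEQ d Γ K k B G Φ (R ^ e) Y0 P0 ch ζ1 R hOK hLag hch hζ1pos (by linarith) hR1' p t (w - (Φ t p).1)).2.1
      rw [hw] at hE2 hE1
      rw [Wpf, hw] at hE2 hE1
      rw [hE2, hE1, hw]
      ring

end

end Pool.Agent.VD
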