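import Pool.Agent.helper11.VD.Spec3e
import Pool.Agent.helper74.VD.SpecI

set_option autoImplicit false

open scoped ContDiff Topology InnerProductSpace ENNReal ComplexConjugate
open MeasureTheory Filter Set

namespace Pool.Agent.VD

open Pool.Agent.RPQ (PN PJ UN upd IsOp nst)
open Pool.Agent.VQ (CH PS KZ perZ cmZ stZ wdZ InvS AdZ vz mZ wM qZ phZ rk)
open Pool.Agent.VN (aN)
open Pool.Agent.VDE (UWLD FDX)

noncomputable section

theorem FND_ch : ∃ ch : ℝ → ℝ, CH ch := by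
  refine ⟨fun s => Real.smoothTransition (2 - 2 * s), ?_, ?_, ?_, ?_⟩
  · exact Real.smoothTransition.contDiff.comp (contDiff_const.sub (contDiff_const.mul contDiff_id))
  · intro s hs
    exact Real.smoothTransition.one_of_one_le (by linarith)
  · intro s hs
    exact Real.smoothTransition.zero_of_nonpos (by linarith)
  · intro s
    exact ⟨Real.smoothTransition.nonneg _, Real.smoothTransition.le_one _⟩

theorem FND_met {d : ℕ} {f : V d → ℝ} {G : V d → V d →L[ℝ] V d} (hf : ContDiff ℝ ∞ f) (hG : IsMetric G) :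
    IsMetric (cfm f G) := by
  refine ⟨hf.exp.smul hG.smooth, ?_, ?_⟩
  · intro x u v
    show ⟪(Real.exp (f x) • G x) u, v⟫_ℝ = ⟪u, (Real.exp (f x) • G x) v⟫_ℝ
    rw [_root_.smul_apply, _root_.smul_apply, real_inner_smul_left, real_inner_smul_right, hG.symm]
  · intro x u hu
    show 0 < ⟪(Real.exp (f x) • G x) u, u⟫_ℝ
    rw [_root_.smul_apply, real_inner_smul_left]
    exact mul_pos (Real.exp_pos _) (hG.pos x u hu)

theorem FND_small {X : Type} [MeasurableSpace X] {ν : Measure X} {w r : X → ℝ} {ε' : ℝ} (hw0 : ∀ x, 0 ≤ w x)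
    (iw : Integrable w ν) (hr : ∀ x, |r x| ≤ ε') : |∫ x, r x * w x ∂ν| ≤ ε' * ∫ x, w x ∂ν := by
  rw [← integral_const_mul]
  refine norm_integral_le_of_norm_le (f := fun x => r x * w x) (iw.const_mul ε') (Eventually.of_forall fun x => ?_)
  rw [Real.norm_eq_abs, abs_mul, abs_of_nonneg (hw0 x)]
  exact mul_le_mul_of_nonneg_right (hr x) (hw0 x)

theorem FND_split {X : Type} [MeasurableSpace X] {ν : Measure X} {w h s : X → ℝ} {M : ℝ} (hM : 0 < M)
    (iw : Integrable w ν) (ihw : Integrable (fun x => h x * w x) ν) (isw : Integrable (fun x => s x * w x) ν) :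
    ∫ x, h x * w x ∂ν = 2 * M * (∫ x, s x * w x ∂ν) + 2 * M * (∫ x, ((h x + M) / (2 * M) - s x) * w x ∂ν) - M * ∫ x, w x ∂ν := by
  have e1 : ∀ x, ((h x + M) / (2 * M) - s x) * w x = (2 * M)⁻¹ * (h x * w x) + 1 / 2 * w x - s x * w x := by
    intro x
    field_simp
  have e2 : ∫ x, ((h x + M) / (2 * M) - s x) * w x ∂ν = (2 * M)⁻¹ * (∫ x, h x * w x ∂ν) + 1 / 2 * (∫ x, w x ∂ν) - ∫ x, s x * w x ∂ν := by
    simp only [e1]
    have i1 : Integrable (fun x => (2 * M)⁻¹ * (h x * w x)) ν := ihw.const_mul _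
    have i2 : Integrable (fun x => 1 / 2 * w x) ν := iw.const_mul _
    have i3 : Integrable (fun x => (2 * M)⁻¹ * (h x * w x) + 1 / 2 * w x) ν := i1.add i2
    rw [integral_sub i3 isw, integral_add i1 i2, integral_const_mul, integral_const_mul]
  rw [e2]
  field_simp
  ring

theorem FND_abs {X : Type} [MeasurableSpace X] {ν : Measure X} {w ρ h s : X → ℝ} {M ε' e : ℝ} (hw0 : ∀ x, 0 ≤ w x)
    (hρ0 : ∀ x, 0 ≤ ρ x) (hz : 0 < ∫ x, ρ x ∂ν ∨ ν = 0) (iw : Integrable w ν) (iρ : Integrable ρ ν)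
    (ihw : Integrable (fun x => h x * w x) ν) (isw : Integrable (fun x => s x * w x) ν)
    (ihρ : Integrable (fun x => h x * ρ x) ν) (isρ : Integrable (fun x => s x * ρ x) ν) (hM : 0 < M)
    (hs : ∀ x, |(h x + M) / (2 * M) - s x| ≤ ε')
    (hT : |(∫ x, s x * w x ∂ν) - (∫ x, s x * ρ x ∂ν) / (∫ x, ρ x ∂ν) * ∫ x, w x ∂ν| ≤ e * ∫ x, w x ∂ν) :
    |(∫ x, h x * w x ∂ν) - (∫ x, h x * ρ x ∂ν) / (∫ x, ρ x ∂ν) * ∫ x, w x ∂ν| ≤ 2 * M * (e + 2 * ε') * ∫ x, w x ∂ν := by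
  rcases hz with hD | hν
  · have q1 := FND_split hM iw ihw isw
    have q2 := FND_split hM iρ ihρ isρ
    have q3 := FND_small hw0 iw hs
    have q4 := FND_small hρ0 iρ hs
    have hW : 0 ≤ ∫ x, w x ∂ν := integral_nonneg hw0
    rw [q1, q2]
    generalize (∫ x, w x ∂ν) = W at *
    generalize (∫ x, ρ x ∂ν) = D at *
    generalize (∫ x, s x * w x ∂ν) = Sw at *
    generalize (∫ x, s x * ρ x ∂ν) = Sr at *
    generalize (∫ x, ((h x + M) / (2 * M) - s x) * w x ∂ν) = Rw at *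
    generalize (∫ x, ((h x + M) / (2 * M) - s x) * ρ x ∂ν) = Rr at *
    have e1 : 2 * M * Sw + 2 * M * Rw - M * W - (2 * M * Sr + 2 * M * Rr - M * D) / D * W =
        2 * M * ((Sw - Sr / D * W) + (Rw - Rr / D * W)) := by
      field_simp
      ring
    rw [e1, abs_mul, abs_of_pos (by positivity : 0 < 2 * M)]
    have q5 : |Rr / D| ≤ ε' := by
      rw [abs_div, abs_of_pos hD, div_le_iff₀ hD]
      exact q4
    have q6 : |Rr / D * W| ≤ ε' * W := by
      rw [abs_mul, abs_of_nonneg hW]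
      exact mul_le_mul_of_nonneg_right q5 hW
    have q7 : |(Sw - Sr / D * W) + (Rw - Rr / D * W)| ≤ (e + 2 * ε') * W := by
      refine (abs_add_le _ _).trans ?_
      have := abs_sub Rw (Rr / D * W)
      linarith
    calc 2 * M * |(Sw - Sr / D * W) + (Rw - Rr / D * W)| ≤ 2 * M * ((e + 2 * ε') * W) :=
          mul_le_mul_of_nonneg_left q7 (by positivity)
      _ = 2 * M * (e + 2 * ε') * W := by ring
  · rw [hν]
    simp

/-- the functions of the final statement -/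
def FND_u {d : ℕ} (J : ℕ → ℕ) (χ : (k : ℕ) → Fin (J k) → V d → ℝ) (k j : ℕ) (x : V d) : ℝ :=
  if h : j < J k then aN k * χ k ⟨j, h⟩ x else 0

theorem FND_sum {d : ℕ} (J : ℕ → ℕ) (χ : (k : ℕ) → Fin (J k) → V d → ℝ) (k : ℕ) (ξ : ℕ → ℝ) (x : V d) :
    ∑ j ∈ Finset.range (J k), ξ j * FND_u J χ k j x = aN k * VF (χ k) (fun j => ξ (j : ℕ)) x := by
  rw [Finset.sum_range]
  unfold VF
  rw [Finset.mul_sum]
  refine Finset.sum_congr rfl fun i _ => ?_
  have h : FND_u J χ k (i : ℕ) x = aN k * χ k i x := by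
    unfold FND_u
    rw [dif_pos i.2]
  rw [h]
  ring

theorem FND_tsum {d : ℕ} (J : ℕ → ℕ) (χ : (k : ℕ) → Fin (J k) → V d → ℝ) (ζ : ℕ × ℕ → ℝ) (x : V d) :
    (∑' k, ∑ j ∈ Finset.range (J k), ζ (k, j) * FND_u J χ k j x) = rD χ ζ x := by
  unfold rD
  refine tsum_congr fun k => ?_
  unfold lD
  exact FND_sum J χ k (fun j => ζ (k, j)) x

theorem FND_aN (k : ℕ) : 0 ≤ aN k := by
  unfold aN
  positivity

theorem FND_que {d : ℕ} {Γ : Type} [Group Γ] [MulAction Γ (V d)] {K F0 : Set (V d)} (hK : FdK Γ K) (hF : FDX Γ K F0)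
    (hMVE : MVE_stmt) {G : V d → V d →L[ℝ] V d} (hG : IsMetric G) {S : ℕ → V d → ℝ} (hS : ∀ i, TD Γ (S i))
    (hS2 : ∀ h : V d → ℝ, Continuous h → Inv Γ h → (∀ x, 0 ≤ h x ∧ h x ≤ 1) → ∀ ε : ℝ, 0 < ε → ∃ i, ∀ x, |h x - S i x| ≤ ε)
    (hB : ∀ i n : ℕ, ∃ r1 : ℝ, 0 < r1 ∧ ∀ (μ : ℝ) (φ : V d → ℂ), r1 ≤ μ → Eigenfunction Γ G μ φ →
      |(∫ x in F0, S i x * ‖φ x‖ ^ 2 ∂mv G) - mean G F0 (S i) * nn G F0 φ| ≤ 1 / ((n : ℝ) + 1) * nn G F0 φ) : QUE Γ F0 G := by
  obtain ⟨m1, m2, m3, m4, -⟩ := hMVE d G hG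
  intro h hc hi ε hε
  -- h is bounded
  obtain ⟨M0, hM0⟩ := hK.compact.exists_bound_of_continuousOn hc.continuousOn
  obtain ⟨M, hM, hhM⟩ : ∃ M : ℝ, 0 < M ∧ ∀ x, |h x| ≤ M := by
    refine ⟨max M0 1, lt_max_of_lt_right one_pos, fun x => ?_⟩
    obtain ⟨γ, hγ⟩ := hK.cover x
    have h1 := hM0 (γ • x) hγ
    rw [hi γ x, Real.norm_eq_abs] at h1
    exact h1.trans (le_max_left _ _)
  have hc' : Continuous fun x => (h x + M) / (2 * M) := (hc.add continuous_const).div_const _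
  obtain ⟨i, hSi⟩ := hS2 (fun x => (h x + M) / (2 * M)) hc' (fun γ x => by show (h (γ • x) + M) / (2 * M) = (h x + M) / (2 * M); rw [hi γ x])
    (fun x => by
      have h1 := abs_le.1 (hhM x)
      refine ⟨div_nonneg (by linarith) (by positivity), ?_⟩
      rw [div_le_one (by positivity)]
      linarith) (ε / (8 * M)) (by positivity)
  obtain ⟨n, hn⟩ := exists_nat_one_div_lt (show 0 < ε / (4 * M) by positivity)
  obtain ⟨r1, hr1, hr2⟩ := hB i n
  refine ⟨r1, fun μ φ hμ hφ => ?_⟩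
  have hφc : Continuous fun x => ‖φ x‖ ^ 2 := (hφ.1.continuous.norm).pow 2
  have hSc : Continuous (S i) := (hS i).smooth.continuous
  have hint : ∀ g : V d → ℝ, Continuous g → Integrable g (volume.restrict F0) := fun g hg =>
    (hg.continuousOn.integrableOn_compact hK.compact).mono_set hF.sub
  obtain ⟨b, hb⟩ := hK.compact.isBounded.exists_norm_le
  have hmass := (m4 F0 b hF.meas (fun x hx => hb x (hF.sub hx))).2
  have hT := hr2 μ φ hμ hφ
  have t1 : (∫ x in F0, S i x * ‖φ x‖ ^ 2 ∂mv G) = ∫ x in F0, S i x * (‖φ x‖ ^ 2 * dens G x) := by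
    rw [m3 F0 _ hF.meas]
    simp only [mul_assoc]
  have t2 : nn G F0 φ = ∫ x in F0, ‖φ x‖ ^ 2 * dens G x := by
    unfold nn
    rw [m3 F0 _ hF.meas]
  have t3 : mean G F0 (S i) = (∫ x in F0, S i x * dens G x) / ∫ x in F0, dens G x := by
    unfold mean
    rw [m3 F0 _ hF.meas, hmass]
  rw [t1, t2, t3] at hT
  have hz : 0 < ∫ x in F0, dens G x ∨ (volume.restrict F0 : Measure (V d)) = 0 := by
    by_cases h0 : (volume.restrict F0 : Measure (V d)) = 0
    · exact Or.inr h0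
    · left
      have h1 : 0 < ∫ x in F0, dens G x := by
        rw [setIntegral_pos_iff_support_of_nonneg_ae (Eventually.of_forall fun x => (m2 x).le) (hint _ m1)]
        have h2 : Function.support (dens G) = univ := by
          ext x
          simp only [Function.mem_support, mem_univ, iff_true]
          exact (m2 x).ne'
        rw [h2, univ_inter]
        refine pos_iff_ne_zero.2 fun h3 => h0 ?_
        rw [Measure.restrict_eq_zero]
        exact h3
      exact h1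
  have hfin := FND_abs (ν := volume.restrict F0) (w := fun x => ‖φ x‖ ^ 2 * dens G x) (ρ := dens G) (h := h) (s := S i) (M := M)
    (ε' := ε / (8 * M)) (e := 1 / ((n : ℝ) + 1)) (fun x => mul_nonneg (by positivity) (m2 x).le) (fun x => (m2 x).le) hz
    (hint _ (hφc.mul m1)) (hint _ m1) (hint _ (hc.mul (hφc.mul m1))) (hint _ (hSc.mul (hφc.mul m1))) (hint _ (hc.mul m1))
    (hint _ (hSc.mul m1)) hM hSi hT
  have e1 : (∫ x in F0, h x * ‖φ x‖ ^ 2 * dens G x) = ∫ x in F0, h x * (‖φ x‖ ^ 2 * dens G x) := by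
    simp only [mul_assoc]
  rw [e1]
  refine hfin.trans (mul_le_mul_of_nonneg_right ?_ (integral_nonneg fun x => mul_nonneg (by positivity) (m2 x).le))
  have h5 : 1 / ((n : ℝ) + 1) + 2 * (ε / (8 * M)) ≤ ε / (2 * M) := by
    have h6 : ε / (4 * M) + 2 * (ε / (8 * M)) = ε / (2 * M) := by
      field_simp
      norm_num
    linarith
  calc 2 * M * (1 / ((n : ℝ) + 1) + 2 * (ε / (8 * M))) ≤ 2 * M * (ε / (2 * M)) := mul_le_mul_of_nonneg_left h5 (by positivity)
    _ = ε := by field_simp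

theorem FND_proof (hBC2D : BC2D_stmt) (hFMD : FMD_stmt) (hSED : SED_stmt) (hLND : LND_stmt) (hMVE : MVE_stmt)
    (hRSM : RPQ.RSM_stmt) (hAPUE : APUE_stmt) : FND_stmt := by
  intro d Γ _ _ K F0 hd hK hF
  obtain ⟨ch, hch⟩ := FND_ch
  obtain ⟨r0, χ0, hPU, -⟩ := hAPUE d Γ K hK
  obtain ⟨Cn, k0, J, p, χ, -, hFam, hJ⟩ := hFMD d Γ K hK
  have hSE := hSED d Γ K Cn k0 J p χ hK hFam
  refine ⟨k0, J, FND_u J χ, hJ, ?_, ?_, ?_, ?_⟩
  · intro k j
    by_cases h : j < J k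
    · have hk : k0 ≤ k := by
        by_contra hk
        have := hFam.zero k (by omega)
        omega
      have hn := hFam.net k hk
      have he : FND_u J χ k j = fun x => aN k * χ k ⟨j, h⟩ x := by
        funext x
        unfold FND_u
        rw [dif_pos h]
      rw [he]
      refine ⟨contDiff_const.mul (hn.smooth ⟨j, h⟩), fun γ x => ?_, fun x => mul_nonneg (FND_aN k) (hn.bd ⟨j, h⟩ x).1⟩
      show aN k * χ k ⟨j, h⟩ (γ • x) = aN k * χ k ⟨j, h⟩ x
      rw [hn.inv ⟨j, h⟩ γ x]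
    · have he : FND_u J χ k j = fun _ => 0 := by
        funext x
        unfold FND_u
        rw [dif_neg h]
      rw [he]
      exact ⟨contDiff_const, fun γ x => rfl, fun x => le_refl _⟩
  · intro L hL n
    obtain ⟨c, C', hc, -, h, -⟩ := hFam.sum L hL
    refine ⟨c n, hc n, fun k ξ hξ => ?_⟩
    have h1 := h n k (fun q => ξ q.2) (fun q => hξ _)
    have he : (fun x : V d => ∑ j ∈ Finset.range (J k), ξ j * FND_u J χ k j x) = lD χ (fun q => ξ q.2) k := by
      funext x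
      unfold lD
      exact FND_sum J χ k ξ x
    rw [he]
    exact h1
  · intro ζ hζ
    have he : (fun x : V d => ∑' k, ∑ j ∈ Finset.range (J k), ζ (k, j) * FND_u J χ k j x) = rD χ ζ := by
      funext x
      rw [FND_tsum]
    rw [he]
    exact (hSE.1 ζ hζ).1
  · intro G0 hG0 hD
    obtain ⟨S, hS1, hS2⟩ := hLND d Γ K hK
    have hae : ∀ᵐ ζ ∂PN, ∀ i n : ℕ, NegativelyCurved (cfm (rD χ ζ) G0) → ∃ r1 : ℝ, 0 < r1 ∧ ∀ (μ : ℝ) (φ : V d → ℂ), r1 ≤ μ →
        Eigenfunction Γ (cfm (rD χ ζ) G0) μ φ → |(∫ x in F0, S i x * ‖φ x‖ ^ 2 ∂mv (cfm (rD χ ζ) G0)) -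
          mean (cfm (rD χ ζ) G0) F0 (S i) * nn (cfm (rD χ ζ) G0) F0 φ| ≤ 1 / ((n : ℝ) + 1) * nn (cfm (rD χ ζ) G0) F0 φ := by
      rw [ae_all_iff]
      intro i
      rw [ae_all_iff]
      intro n
      exact hBC2D d Γ K F0 r0 χ0 ch Cn k0 J p χ G0 hd hK hF hPU hch hFam hG0 hD (S i) (1 / ((n : ℝ) + 1)) (hS1 i) (by positivity)
    filter_upwards [hae, hRSM.2.1] with ζ hζ hζ1 hneg
    have he : (fun x : V d => ∑' k, ∑ j ∈ Finset.range (J k), ζ (k, j) * FND_u J χ k j x) = rD χ ζ := by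
      funext x
      rw [FND_tsum]
    rw [he] at hneg ⊢
    exact FND_que hK hF hMVE (FND_met (hSE.1 ζ hζ1).1 hG0) hS1 hS2 fun i n => hζ i n hneg

end

end Pool.Agent.VD
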